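import Mathlib

/-! The group of the matrices `[[1, n, b], [0, 1, a], [0, 0, 1]]`, `n ∈ ℤ`, `a, b ∈ ℝ`. -/

open Topology Filter

namespace Pool.Agent.Q39.NR

/-- The matrix `[[1, n, b], [0, 1, a], [0, 0, 1]]`. -/
@[ext] structure HG where
  /-- the integer entry -/
  n : ℤ
  /-- the second entry -/
  a : ℝ
  /-- the central entry -/
  b : ℝ

namespace HG

instance : Mul HG := ⟨fun g h => ⟨g.n + h.n, g.a + h.a, g.b + h.b + g.n * h.a⟩⟩
instance : One HG := ⟨⟨0, 0, 0⟩⟩
instance : Inv HG := ⟨fun g => ⟨-g.n, -g.a, g.n * g.a - g.b⟩⟩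

@[simp] theorem mul_n (g h : HG) : (g * h).n = g.n + h.n := rfl
@[simp] theorem mul_a (g h : HG) : (g * h).a = g.a + h.a := rfl
@[simp] theorem mul_b (g h : HG) : (g * h).b = g.b + h.b + g.n * h.a := rfl
@[simp] theorem one_n : (1 : HG).n = 0 := rfl
@[simp] theorem one_a : (1 : HG).a = 0 := rfl
@[simp] theorem one_b : (1 : HG).b = 0 := rfl
@[simp] theorem inv_n (g : HG) : (g⁻¹).n = -g.n := rfl
@[simp] theorem inv_a (g : HG) : (g⁻¹).a = -g.a := rfl
@[simp] theorem inv_b (g : HG) : (g⁻¹).b = g.n * g.a - g.b := rfl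

instance : Group HG := Group.ofLeftAxioms
  (fun g h k => by ext <;> simp <;> ring)
  (fun g => by ext <;> simp)
  (fun g => by ext <;> simp)

/-- The coordinates. -/
def equiv : HG ≃ ℤ × ℝ × ℝ where
  toFun g := (g.n, g.a, g.b)
  invFun p := ⟨p.1, p.2.1, p.2.2⟩
  left_inv _ := rfl
  right_inv _ := rfl

instance : TopologicalSpace HG := TopologicalSpace.induced equiv inferInstance

/-- The coordinates as a homeomorphism. -/
def homeo : HG ≃ₜ ℤ × ℝ × ℝ := equiv.toHomeomorphOfIsInducing ⟨rfl⟩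

instance : PolishSpace HG := homeo.isClosedEmbedding.polishSpace

theorem cont_n : Continuous fun g : HG => g.n := continuous_fst.comp homeo.continuous
theorem cont_a : Continuous fun g : HG => g.a :=
  (continuous_fst.comp continuous_snd).comp homeo.continuous
theorem cont_b : Continuous fun g : HG => g.b :=
  (continuous_snd.comp continuous_snd).comp homeo.continuous

theorem cont_mk {X : Type*} [TopologicalSpace X] {f : X → ℤ} {g h : X → ℝ} (hf : Continuous f)
    (hg : Continuous g) (hh : Continuous h) : Continuous fun x => (⟨f x, g x, h x⟩ : HG) :=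
  homeo.symm.continuous.comp (hf.prodMk (hg.prodMk hh))

theorem cont_cast {X : Type*} [TopologicalSpace X] {f : X → ℤ} (hf : Continuous f) :
    Continuous fun x => ((f x : ℤ) : ℝ) :=
  (continuous_of_discreteTopology (f := fun n : ℤ => (n : ℝ))).comp hf

instance : IsTopologicalGroup HG where
  continuous_mul := cont_mk ((cont_n.comp continuous_fst).add (cont_n.comp continuous_snd))
    ((cont_a.comp continuous_fst).add (cont_a.comp continuous_snd))
    (((cont_b.comp continuous_fst).add (cont_b.comp continuous_snd)).add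
      ((cont_cast (cont_n.comp continuous_fst)).mul (cont_a.comp continuous_snd)))
  continuous_inv := cont_mk cont_n.neg cont_a.neg (((cont_cast cont_n).mul cont_a).sub cont_b)

/-- The homomorphism onto the first two entries. -/
def toAb : HG →* Multiplicative (ℤ × ℝ) where
  toFun g := Multiplicative.ofAdd (g.n, g.a)
  map_one' := rfl
  map_mul' _ _ := rfl

instance : Group.IsNilpotent HG := by
  refine Subgroup.isNilpotent_of_ker_le_center toAb ?_
  intro g hg
  have h1 : (g.n, g.a) = ((0 : ℤ), (0 : ℝ)) := hg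
  have hn : g.n = 0 := (Prod.ext_iff.1 h1).1
  have ha : g.a = 0 := (Prod.ext_iff.1 h1).2
  rw [Subgroup.mem_center_iff]
  intro h
  ext <;> simp [hn, ha, add_comm]

/-- The lattice of the elements with integer entries, the first one divisible by `r`. -/
def Gam (r : ℕ) : Subgroup HG where
  carrier := {g | (r : ℤ) ∣ g.n ∧ (∃ c : ℤ, g.a = c) ∧ ∃ d : ℤ, g.b = d}
  one_mem' := ⟨by simp, ⟨0, by simp⟩, ⟨0, by simp⟩⟩
  mul_mem' := by
    rintro g h ⟨h1, ⟨c, hc⟩, ⟨d, hd⟩⟩ ⟨h2, ⟨c', hc'⟩, ⟨d', hd'⟩⟩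
    refine ⟨?_, ⟨c + c', ?_⟩, ⟨d + d' + g.n * c', ?_⟩⟩
    · simpa using dvd_add h1 h2
    · simp [hc, hc']
    · simp [hd, hd', hc']
  inv_mem' := by
    rintro g ⟨h1, ⟨c, hc⟩, ⟨d, hd⟩⟩
    refine ⟨?_, ⟨-c, ?_⟩, ⟨g.n * c - d, ?_⟩⟩
    · simpa using h1
    · simp [hc]
    · simp [hc, hd]

theorem mk_eq {r : ℕ} (g h : HG) : (QuotientGroup.mk g : HG ⧸ Gam r) = QuotientGroup.mk h ↔
    (r : ℤ) ∣ h.n - g.n ∧ (∃ c : ℤ, h.a - g.a = c) ∧ ∃ d : ℤ, h.b - g.b = d := by
  rw [QuotientGroup.eq]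
  show ((r : ℤ) ∣ (g⁻¹ * h).n ∧ (∃ c : ℤ, (g⁻¹ * h).a = c) ∧ ∃ d : ℤ, (g⁻¹ * h).b = d) ↔ _
  simp only [mul_n, mul_a, mul_b, inv_n, inv_a, inv_b]
  constructor
  · rintro ⟨h1, ⟨c, hc⟩, ⟨d, hd⟩⟩
    refine ⟨by rwa [neg_add_eq_sub] at h1, ⟨c, by linarith⟩, ⟨d + g.n * c, ?_⟩⟩
    push_cast
    push_cast at hd
    have : h.a = c + g.a := by linarith
    rw [this] at hd
    linear_combination hd
  · rintro ⟨h1, ⟨c, hc⟩, ⟨d, hd⟩⟩
    refine ⟨by rwa [neg_add_eq_sub], ⟨c, by linarith⟩, ⟨d - g.n * c, ?_⟩⟩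
    push_cast
    have : h.a = c + g.a := by linarith
    rw [this]
    linear_combination hd

instance (r : ℕ) : DiscreteTopology (Gam r) := by
  refine discreteTopology_of_isOpen_singleton_one ?_
  have h1 : IsOpen {g : HG | g.n = 0 ∧ |g.a| < 1 ∧ |g.b| < 1} := by
    refine IsOpen.inter ?_ (IsOpen.inter ?_ ?_)
    · exact (isOpen_discrete ({0} : Set ℤ)).preimage cont_n
    · exact isOpen_lt (cont_a.abs) continuous_const
    · exact isOpen_lt (cont_b.abs) continuous_const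
  have h2 : ({1} : Set (Gam r)) = Subtype.val ⁻¹' {g : HG | g.n = 0 ∧ |g.a| < 1 ∧ |g.b| < 1} := by
    ext ⟨g, hg⟩
    obtain ⟨h1, ⟨c, hc⟩, ⟨d, hd⟩⟩ := hg
    simp only [Set.mem_singleton_iff, Set.mem_preimage, Set.mem_ofPred_eq]
    constructor
    · intro h
      have h' : g = 1 := congrArg Subtype.val h
      subst h'
      simp
    · rintro ⟨h3, h4, h5⟩
      rw [hc] at h4
      rw [hd] at h5
      have hc0 : c = 0 := by
        have : |c| < 1 := by exact_mod_cast h4
        exact Int.abs_lt_one_iff.1 this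
      have hd0 : d = 0 := by
        have : |d| < 1 := by exact_mod_cast h5
        exact Int.abs_lt_one_iff.1 this
      apply Subtype.ext
      ext
      · exact h3
      · rw [hc, hc0]; simp
      · rw [hd, hd0]; simp
  rw [h2]
  exact h1.preimage continuous_subtype_val

theorem compact_quot {r : ℕ} (hr : 0 < r) : CompactSpace (HG ⧸ Gam r) := by
  constructor
  set K : Set HG := homeo ⁻¹' ((Set.Icc (0 : ℤ) r) ×ˢ (Set.Icc (0 : ℝ) 1 ×ˢ Set.Icc (0 : ℝ) 1))
  have hK : IsCompact K := by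
    rw [homeo.isCompact_preimage]
    exact (Set.finite_Icc (0 : ℤ) r).isCompact.prod (isCompact_Icc.prod isCompact_Icc)
  have h1 : (QuotientGroup.mk '' K : Set (HG ⧸ Gam r)) = Set.univ := by
    rw [Set.eq_univ_iff_forall]
    intro x
    obtain ⟨g, rfl⟩ := QuotientGroup.mk_surjective x
    refine ⟨⟨g.n % r, Int.fract g.a, Int.fract g.b⟩, ?_, ?_⟩
    · have hr' : (0 : ℤ) < r := by exact_mod_cast hr
      refine ⟨⟨Int.emod_nonneg _ hr'.ne', (Int.emod_lt_of_pos _ hr').le⟩,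
        ⟨Int.fract_nonneg _, (Int.fract_lt_one _).le⟩, Int.fract_nonneg _, (Int.fract_lt_one _).le⟩
    · rw [mk_eq]
      refine ⟨?_, ⟨⌊g.a⌋, ?_⟩, ⟨⌊g.b⌋, ?_⟩⟩
      · exact Int.dvd_self_sub_emod
      · simp [Int.self_sub_fract]
      · simp [Int.self_sub_fract]
  rw [← h1]
  exact hK.image QuotientGroup.continuous_mk

theorem tau_zpow (α : ℝ) (k : ℤ) :
    (⟨1, α, 0⟩ : HG) ^ k = ⟨k, k * α, (k * (k - 1) / 2) * α⟩ := by
  induction k with
  | zero =>
    rw [zpow_zero]
    ext <;> simp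
  | succ k ih =>
    rw [zpow_add_one, ih]
    ext
    · simp
    · simp; ring
    · simp; ring
  | pred k ih =>
    rw [zpow_sub_one, ih]
    ext
    · simp; ring
    · simp; ring
    · simp; ring

end HG

end Pool.Agent.Q39.NR
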