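import Pool.Agent.Q39.NR.Grp

/-! Minimality of the translations by `[[1, 1, 0], [0, 1, α], [0, 0, 1]]`, `α` irrational, on the
quotients by the lattices `Gam r`. -/

open Topology Filter MeasureTheory

namespace Pool.Agent.Q39.NR

open HG

variable {r : ℕ} {α : ℝ}

/-- The central element with the entry `c`. -/
def zc (c : ℝ) : HG := ⟨0, 0, c⟩

theorem zc_mul (c : ℝ) (g : HG) : zc c * g = ⟨g.n, g.a, c + g.b⟩ := by
  ext <;> simp [zc]

theorem smul_mk (g h : HG) : g • (QuotientGroup.mk h : HG ⧸ Gam r) = QuotientGroup.mk (g * h) := rfl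

theorem tau_smul (k : ℤ) (n : ℤ) (a b : ℝ) :
    (⟨1, α, 0⟩ : HG) ^ k • (QuotientGroup.mk ⟨n, a, b⟩ : HG ⧸ Gam r) =
      QuotientGroup.mk ⟨k + n, k * α + a, (k * (k - 1) / 2) * α + b + k * a⟩ := by
  rw [smul_mk, tau_zpow]
  rfl

/-- Reduction of the entries modulo the lattice. -/
theorem mk_reduce (n n' : ℤ) (a b : ℝ) (c d : ℤ) (hn : (r : ℤ) ∣ n' - n) :
    (QuotientGroup.mk ⟨n, a, b⟩ : HG ⧸ Gam r) = QuotientGroup.mk ⟨n', a - c, b - d⟩ := by
  rw [mk_eq]
  exact ⟨hn, ⟨-c, by push_cast; ring⟩, ⟨-d, by push_cast; ring⟩⟩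

theorem tendsto_mk {ι : Type*} {l : Filter ι} {f g : ι → ℝ} {a b : ℝ} (n : ℤ)
    (hf : Tendsto f l (𝓝 a)) (hg : Tendsto g l (𝓝 b)) :
    Tendsto (fun i => (QuotientGroup.mk ⟨n, f i, g i⟩ : HG ⧸ Gam r)) l
      (𝓝 (QuotientGroup.mk ⟨n, a, b⟩)) := by
  have h1 : Continuous fun p : ℝ × ℝ => (QuotientGroup.mk (⟨n, p.1, p.2⟩ : HG) : HG ⧸ Gam r) :=
    QuotientGroup.continuous_mk.comp (cont_mk continuous_const continuous_fst continuous_snd)
  exact (h1.tendsto (a, b)).comp (hf.prodMk_nhds hg)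

/-- A closed set which is invariant under the powers of the translation. -/
def Inv (α : ℝ) (M : Set (HG ⧸ Gam r)) : Prop := ∀ k : ℤ, ∀ x ∈ M, (⟨1, α, 0⟩ : HG) ^ k • x ∈ M

/-- The projection to the first two coordinates is onto. -/
theorem base_onto (hr : 0 < r) (hα : Irrational α) {M : Set (HG ⧸ Gam r)} (hM : IsClosed M)
    (hne : M.Nonempty) (hinv : Inv α M) (n : ℤ) (a : ℝ) :
    ∃ b : ℝ, (QuotientGroup.mk ⟨n, a, b⟩ : HG ⧸ Gam r) ∈ M := by
  obtain ⟨m, hm⟩ := hne
  obtain ⟨⟨n', a', b'⟩, rfl⟩ := QuotientGroup.mk_surjective m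
  have hr' : (r : ℝ) ≠ 0 := by exact_mod_cast hr.ne'
  have hdense : Dense (AddSubgroup.closure {(r : ℝ) * α, 1} : Set ℝ) := by
    rw [dense_addSubgroupClosure_pair_iff, div_one]
    exact hα.natCast_mul (by omega)
  -- times
  have htimes : ∀ i : ℕ, ∃ t c : ℤ, (r : ℤ) ∣ n - (t + n') ∧
      |(t * α + a' - c) - a| < 1 / ((i : ℝ) + 1) := by
    intro i
    have hi : (0 : ℝ) < 1 / ((i : ℝ) + 1) := by positivity
    obtain ⟨y, hy1, hy2⟩ := hdense.exists_dist_lt (a - a' - (n - n') * α) hi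
    obtain ⟨u, v, huv⟩ := AddSubgroup.mem_closure_pair.1 hy1
    refine ⟨n - n' + r * u, -v, ⟨-u, by ring⟩, ?_⟩
    rw [Real.dist_eq, abs_sub_comm] at hy2
    rw [← huv] at hy2
    refine lt_of_eq_of_lt ?_ hy2
    congr 1
    push_cast
    simp only [zsmul_eq_mul]
    ring
  choose t c ht1 ht2 using htimes
  -- the third coordinates
  set β : ℕ → ℝ := fun i => Int.fract (((t i : ℝ) * (t i - 1) / 2) * α + b' + t i * a') with hβ
  have hβI : ∀ i, β i ∈ Set.Icc (0 : ℝ) 1 := fun i =>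
    ⟨Int.fract_nonneg _, (Int.fract_lt_one _).le⟩
  obtain ⟨b, -, φ, hφ, hlim⟩ := isCompact_Icc.tendsto_subseq hβI
  refine ⟨b, ?_⟩
  have hmem : ∀ i, (QuotientGroup.mk ⟨n, t i * α + a' - c i, β i⟩ : HG ⧸ Gam r) ∈ M := by
    intro i
    have h1 := hinv (t i) _ hm
    rw [tau_smul, mk_reduce _ n _ _ (c i) ⌊((t i : ℝ) * (t i - 1) / 2) * α + b' + t i * a'⌋
      (ht1 i), Int.self_sub_floor] at h1
    exact h1
  have hta : Tendsto (fun i => t i * α + a' - c i) atTop (𝓝 a) := by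
    rw [tendsto_iff_dist_tendsto_zero]
    refine squeeze_zero (fun i => dist_nonneg) (fun i => ?_)
      tendsto_one_div_add_atTop_nhds_zero_nat
    rw [Real.dist_eq]
    exact (ht2 i).le
  exact hM.mem_of_tendsto (tendsto_mk n (hta.comp hφ.tendsto_atTop) hlim)
    (Eventually.of_forall fun i => hmem _)

theorem zc_smul_mem_closed {M : Set (HG ⧸ Gam r)} (hM : IsClosed M) {n : ℤ} {a b : ℝ} {γ : ℕ → ℝ}
    {c : ℝ} (hγ : Tendsto γ atTop (𝓝 c))
    (h : ∀ i, (QuotientGroup.mk ⟨n, a, γ i + b⟩ : HG ⧸ Gam r) ∈ M) :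
    (QuotientGroup.mk ⟨n, a, c + b⟩ : HG ⧸ Gam r) ∈ M :=
  hM.mem_of_tendsto (tendsto_mk n tendsto_const_nhds (hγ.add_const b)) (Eventually.of_forall h)

/-- A minimal set. -/
structure IsMin (α : ℝ) (M : Set (HG ⧸ Gam r)) : Prop where
  closed : IsClosed M
  nonempty : M.Nonempty
  inv : Inv α M
  min : ∀ N : Set (HG ⧸ Gam r), IsClosed N → N.Nonempty → Inv α N → N ⊆ M → N = M

/-- If one point of a minimal set is moved into the set by a central element, all points are. -/
theorem zc_mem {M : Set (HG ⧸ Gam r)} (hM : IsMin α M) {c : ℝ} {x : HG ⧸ Gam r} (hx : x ∈ M)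
    (hcx : zc c • x ∈ M) : ∀ y ∈ M, zc c • y ∈ M := by
  have hcomm : ∀ k : ℤ, ∀ y : HG ⧸ Gam r,
      zc c • ((⟨1, α, 0⟩ : HG) ^ k • y) = (⟨1, α, 0⟩ : HG) ^ k • (zc c • y) := by
    intro k y
    rw [smul_smul, smul_smul]
    congr 1
    rw [tau_zpow]
    ext <;> simp [zc, add_comm]
  have hcl : IsClosed {y : HG ⧸ Gam r | y ∈ M ∧ zc c • y ∈ M} := by
    refine hM.closed.inter ?_
    have : Continuous fun y : HG ⧸ Gam r => zc c • y := continuous_const_smul _
    exact hM.closed.preimage this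
  have h := hM.min {y : HG ⧸ Gam r | y ∈ M ∧ zc c • y ∈ M} hcl ⟨x, hx, hcx⟩
    (fun k y hy => ⟨hM.inv k y hy.1, by rw [hcomm]; exact hM.inv k _ hy.2⟩) (fun y hy => hy.1)
  intro y hy
  rw [← h] at hy
  exact hy.2

/-- The central elements which preserve a minimal set. -/
def stab {M : Set (HG ⧸ Gam r)} (hM : IsMin α M) : AddSubgroup ℝ where
  carrier := {c | ∀ y ∈ M, zc c • y ∈ M}
  zero_mem' := by
    intro y hy
    have : zc 0 = 1 := rfl
    rw [this, one_smul]
    exact hy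
  add_mem' := by
    intro c d hc hd y hy
    have : zc (c + d) = zc c * zc d := by ext <;> simp [zc]
    rw [this, mul_smul]
    exact hc _ (hd _ hy)
  neg_mem' := by
    intro c hc
    obtain ⟨x, hx⟩ := hM.nonempty
    refine zc_mem hM (hc x hx) ?_
    have : zc (-c) * zc c = 1 := by ext <;> simp [zc]
    rw [smul_smul, this, one_smul]
    exact hx

theorem one_mem_stab {M : Set (HG ⧸ Gam r)} (hM : IsMin α M) : (1 : ℝ) ∈ stab hM := by
  intro y hy
  obtain ⟨⟨n, a, b⟩, rfl⟩ := QuotientGroup.mk_surjective y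
  have : zc 1 • (QuotientGroup.mk ⟨n, a, b⟩ : HG ⧸ Gam r) = QuotientGroup.mk ⟨n, a, b⟩ := by
    rw [smul_mk, zc_mul, mk_eq]
    exact ⟨by simp, ⟨0, by simp⟩, ⟨-1, by push_cast; ring⟩⟩
  rw [this]
  exact hy

theorem closed_stab {M : Set (HG ⧸ Gam r)} (hM : IsMin α M) : IsClosed (stab hM : Set ℝ) := by
  have h : (stab hM : Set ℝ) = ⋂ y ∈ M, {c | zc c • y ∈ M} := by
    ext c
    simp [stab]
  rw [h]
  refine isClosed_biInter fun y _ => ?_
  obtain ⟨⟨n, a, b⟩, rfl⟩ := QuotientGroup.mk_surjective y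
  have h1 : Continuous fun c : ℝ => (QuotientGroup.mk (⟨n, a, c + b⟩ : HG) : HG ⧸ Gam r) :=
    QuotientGroup.continuous_mk.comp (cont_mk continuous_const continuous_const
      (continuous_id.add continuous_const))
  have h2 : {c : ℝ | zc c • (QuotientGroup.mk ⟨n, a, b⟩ : HG ⧸ Gam r) ∈ M} =
      (fun c : ℝ => (QuotientGroup.mk (⟨n, a, c + b⟩ : HG) : HG ⧸ Gam r)) ⁻¹' M := by
    ext c
    simp only [Set.mem_ofPred_eq, Set.mem_preimage, smul_mk, zc_mul]
  rw [h2]
  exact hM.closed.preimage h1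

/-- The stabilizer of a minimal set is everything. -/
theorem stab_eq_top (hr : 0 < r) (hα : Irrational α) {M : Set (HG ⧸ Gam r)} (hM : IsMin α M) :
    ∀ c : ℝ, c ∈ stab hM := by
  rcases (stab hM).dense_or_cyclic with hd | ⟨s, hs⟩
  · intro c
    have h1 := hd c
    rw [(closed_stab hM).closure_eq] at h1
    exact h1
  exfalso
  -- `q c` is an integer for all `c` in the stabilizer
  obtain ⟨q, hq0, hq⟩ : ∃ q : ℤ, q ≠ 0 ∧ ∀ c ∈ stab hM, ∃ m : ℤ, q * c = m := by
    have h1 := one_mem_stab hM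
    rw [hs, AddSubgroup.mem_closure_singleton] at h1
    obtain ⟨q, hq⟩ := h1
    rw [zsmul_eq_mul] at hq
    refine ⟨q, ?_, fun c hc => ?_⟩
    · rintro rfl
      simp at hq
    · rw [hs, AddSubgroup.mem_closure_singleton] at hc
      obtain ⟨m, rfl⟩ := hc
      refine ⟨m, ?_⟩
      rw [zsmul_eq_mul]
      linear_combination (m : ℝ) * hq
  -- return times of the base
  have htimes : ∀ i : ℕ, ∃ t c : ℤ, t ≠ 0 ∧ (r : ℤ) ∣ t ∧ |t * α - c| < 1 / ((i : ℝ) + 1) := by
    intro i
    obtain ⟨j, k, hk, -, hjk⟩ := Real.exists_int_int_abs_mul_sub_le (r * α) (n := i + 1) (by omega)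
    refine ⟨r * k, j, ?_, dvd_mul_right _ _, ?_⟩
    · have : (r : ℤ) ≠ 0 := by exact_mod_cast hr.ne'
      positivity
    · push_cast
      rw [show (r : ℝ) * k * α - j = k * (r * α) - j by ring]
      refine lt_of_le_of_lt hjk ?_
      push_cast
      apply one_div_lt_one_div_of_lt
      · positivity
      · linarith
  choose t c ht0 htr htc using htimes
  set A : ℕ → ℝ := fun i => ((t i : ℝ) * (t i - 1) / 2) * α with hA
  have hE : ∀ x : ℝ, Tendsto (fun i => Complex.exp (2 * Real.pi * Complex.I * q *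
      (t i * x + A i : ℝ))) atTop (𝓝 1) := by
    intro x
    obtain ⟨y, hy⟩ := base_onto hr hα hM.closed hM.nonempty hM.inv 0 x
    refine tendsto_of_subseq_tendsto fun ns hns => ?_
    set β : ℕ → ℝ := fun i => Int.fract (t (ns i) * x + A (ns i)) with hβ
    have hβI : ∀ i, β i ∈ Set.Icc (0 : ℝ) 1 := fun i =>
      ⟨Int.fract_nonneg _, (Int.fract_lt_one _).le⟩
    obtain ⟨γ, -, φ, hφ, hlim⟩ := isCompact_Icc.tendsto_subseq hβI
    have hmem : ∀ i, (QuotientGroup.mk ⟨0, t (ns i) * α + x - c (ns i), β i + y⟩ : HG ⧸ Gam r) ∈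
        M := by
      intro i
      have h1 := hM.inv (t (ns i)) _ hy
      rw [tau_smul, mk_reduce _ 0 _ _ (c (ns i)) ⌊t (ns i) * x + A (ns i)⌋
        (by rw [add_zero, zero_sub]; exact (dvd_neg.2 (htr _)))] at h1
      have e : ((t (ns i) : ℝ) * (t (ns i) - 1) / 2) * α + y + t (ns i) * x -
          ⌊t (ns i) * x + A (ns i)⌋ = β i + y := by
        have h2 : β i = t (ns i) * x + A (ns i) - ⌊t (ns i) * x + A (ns i)⌋ := rfl
        rw [h2, hA]
        ring
      rw [e] at h1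
      exact h1
    have hta : Tendsto (fun i => t (ns i) * α + x - c (ns i)) atTop (𝓝 x) := by
      rw [tendsto_iff_dist_tendsto_zero]
      have h0 : Tendsto (fun i => 1 / ((ns i : ℝ) + 1)) atTop (𝓝 0) :=
        tendsto_one_div_add_atTop_nhds_zero_nat.comp hns
      refine squeeze_zero (fun i => dist_nonneg) (fun i => ?_) h0
      rw [Real.dist_eq, show t (ns i) * α + x - c (ns i) - x = t (ns i) * α - c (ns i) by ring]
      exact (htc _).le
    have hγ : γ ∈ stab hM := by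
      refine zc_mem hM hy ?_
      rw [smul_mk, zc_mul]
      exact hM.closed.mem_of_tendsto (tendsto_mk 0 (hta.comp hφ.tendsto_atTop)
        (hlim.add_const y)) (Eventually.of_forall fun i => hmem _)
    obtain ⟨m, hm⟩ := hq γ hγ
    refine ⟨φ, ?_⟩
    have h1 : Tendsto (fun i => Complex.exp (2 * Real.pi * Complex.I * q * (β (φ i) : ℝ))) atTop
        (𝓝 (Complex.exp (2 * Real.pi * Complex.I * q * (γ : ℝ)))) := by
      have hc : Continuous fun b : ℝ => Complex.exp (2 * Real.pi * Complex.I * q * (b : ℝ)) := by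
        fun_prop
      exact (hc.tendsto γ).comp hlim
    have h2 : Complex.exp (2 * Real.pi * Complex.I * q * (γ : ℝ)) = 1 := by
      have h3 : 2 * Real.pi * Complex.I * q * (γ : ℝ) = (m : ℂ) * (2 * Real.pi * Complex.I) := by
        have h4 : (q : ℂ) * (γ : ℂ) = (m : ℂ) := by exact_mod_cast congrArg (Complex.ofReal) hm
        linear_combination (2 * Real.pi * Complex.I) * h4
      rw [h3]
      exact Complex.exp_int_mul_two_pi_mul_I m
    rw [h2] at h1
    refine h1.congr fun i => ?_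
    have h5 : 2 * Real.pi * Complex.I * q * ((t (ns (φ i)) * x + A (ns (φ i)) : ℝ) : ℂ) =
        2 * Real.pi * Complex.I * q * (β (φ i) : ℝ) +
          ((q * ⌊t (ns (φ i)) * x + A (ns (φ i))⌋ : ℤ) : ℂ) * (2 * Real.pi * Complex.I) := by
      have h6 : t (ns (φ i)) * x + A (ns (φ i)) =
          β (φ i) + ⌊t (ns (φ i)) * x + A (ns (φ i))⌋ := by
        rw [hβ]
        exact (Int.fract_add_floor _).symm
      have h7 : ((t (ns (φ i)) * x + A (ns (φ i)) : ℝ) : ℂ) =
          (β (φ i) : ℂ) + (⌊t (ns (φ i)) * x + A (ns (φ i))⌋ : ℂ) := by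
        exact_mod_cast congrArg (Complex.ofReal) h6
      rw [h7]
      push_cast
      ring
    rw [h5, Complex.exp_add, Complex.exp_int_mul_two_pi_mul_I, mul_one]
  -- integrate
  have hlim : Tendsto (fun i => ∫ x in (0:ℝ)..1, Complex.exp (2 * Real.pi * Complex.I * q *
      (t i * x + A i : ℝ))) atTop (𝓝 (∫ _ in (0:ℝ)..1, (1 : ℂ))) := by
    refine intervalIntegral.tendsto_integral_filter_of_dominated_convergence (fun _ => (1 : ℝ))
      (Eventually.of_forall fun i => ?_) (Eventually.of_forall fun i => ?_)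
      intervalIntegrable_const (Eventually.of_forall fun x _ => hE x)
    · apply Continuous.aestronglyMeasurable
      fun_prop
    · refine Eventually.of_forall fun x _ => ?_
      have h8 : 2 * Real.pi * Complex.I * q * ((t i * x + A i : ℝ) : ℂ) =
          ((2 * Real.pi * q * (t i * x + A i) : ℝ) : ℂ) * Complex.I := by
        push_cast
        ring
      rw [h8, Complex.norm_exp_ofReal_mul_I]
  have hzero : ∀ i, ∫ x in (0:ℝ)..1, Complex.exp (2 * Real.pi * Complex.I * q *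
      (t i * x + A i : ℝ)) = 0 := by
    intro i
    have hq' : (q : ℂ) ≠ 0 := by exact_mod_cast hq0
    have ht' : (t i : ℂ) ≠ 0 := by exact_mod_cast ht0 i
    have hc : 2 * Real.pi * Complex.I * q * t i ≠ 0 :=
      mul_ne_zero (mul_ne_zero Complex.two_pi_I_ne_zero hq') ht'
    have h9 : ∀ x : ℝ, Complex.exp (2 * Real.pi * Complex.I * q * (t i * x + A i : ℝ)) =
        Complex.exp (2 * Real.pi * Complex.I * q * (A i : ℝ)) *
          Complex.exp (2 * Real.pi * Complex.I * q * t i * x) := by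
      intro x
      rw [← Complex.exp_add]
      congr 1
      push_cast
      ring
    simp only [h9]
    rw [intervalIntegral.integral_const_mul, integral_exp_mul_complex hc]
    have h10 : Complex.exp (2 * Real.pi * Complex.I * q * t i * (1 : ℝ)) = 1 := by
      have h11 : 2 * Real.pi * Complex.I * q * t i * (1 : ℝ) =
          ((q * t i : ℤ) : ℂ) * (2 * Real.pi * Complex.I) := by
        push_cast
        ring
      rw [h11]
      exact Complex.exp_int_mul_two_pi_mul_I _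
    rw [h10]
    simp
  simp only [hzero] at hlim
  have := tendsto_nhds_unique hlim tendsto_const_nhds
  simp at this

/-- A minimal set is everything. -/
theorem min_eq_univ (hr : 0 < r) (hα : Irrational α) {M : Set (HG ⧸ Gam r)} (hM : IsMin α M)
    (x : HG ⧸ Gam r) : x ∈ M := by
  obtain ⟨⟨n, a, b⟩, rfl⟩ := QuotientGroup.mk_surjective x
  obtain ⟨β, hβ⟩ := base_onto hr hα hM.closed hM.nonempty hM.inv n a
  have h1 := stab_eq_top hr hα hM (b - β) _ hβ
  rw [smul_mk, zc_mul] at h1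
  simpa using h1

/-- A non-empty closed invariant set contains a minimal set. -/
theorem exists_min (hr : 0 < r) {N : Set (HG ⧸ Gam r)} (hN : IsClosed N) (hne : N.Nonempty)
    (hinv : Inv α N) : ∃ M ⊆ N, IsMin α M := by
  have := compact_quot hr
  obtain ⟨M, hMN, hM⟩ := zorn_superset_nonempty
    {A : Set (HG ⧸ Gam r) | IsClosed A ∧ A.Nonempty ∧ Inv α A} (by
      intro C hC hchain hCne
      refine ⟨⋂₀ C, ⟨?_, ?_, ?_⟩, fun s hs => Set.sInter_subset_of_mem hs⟩
      · exact isClosed_sInter fun A hA => (hC hA).1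
      · have : Nonempty C := hCne.to_subtype
        refine IsCompact.nonempty_sInter_of_directed_nonempty_isCompact_isClosed
          ?_ (fun A hA => (hC hA).2.1) (fun A hA => (hC hA).1.isCompact)
          (fun A hA => (hC hA).1)
        intro A hA B hB
        rcases hchain.total hA hB with h | h
        · exact ⟨A, hA, subset_rfl, h⟩
        · exact ⟨B, hB, h, subset_rfl⟩
      · intro k x hx
        rw [Set.mem_sInter] at hx ⊢
        exact fun A hA => (hC hA).2.2 k x (hx A hA)) N ⟨hN, hne, hinv⟩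
  refine ⟨M, hMN, ⟨hM.prop.1, hM.prop.2.1, hM.prop.2.2, fun A h1 h2 h3 h4 => ?_⟩⟩
  exact le_antisymm h4 (hM.le_of_le ⟨h1, h2, h3⟩ h4)

/-- All orbits of the translation are dense. -/
theorem minimal (hr : 0 < r) (hα : Irrational α) (x : HG ⧸ Gam r) :
    Dense {y | ∃ k : ℤ, y = (⟨1, α, 0⟩ : HG) ^ k • x} := by
  intro z
  set N : Set (HG ⧸ Gam r) := closure {y | ∃ k : ℤ, y = (⟨1, α, 0⟩ : HG) ^ k • x} with hN
  have hinv : Inv α N := by
    intro k y hy
    have hc : Continuous fun y : HG ⧸ Gam r => (⟨1, α, 0⟩ : HG) ^ k • y := continuous_const_smul _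
    have h1 := image_closure_subset_closure_image hc (Set.mem_image_of_mem _ hy)
    refine closure_mono ?_ h1
    rintro _ ⟨_, ⟨l, rfl⟩, rfl⟩
    exact ⟨k + l, by rw [zpow_add, mul_smul]⟩
  have hne : N.Nonempty := ⟨x, subset_closure ⟨0, by simp⟩⟩
  obtain ⟨M, hMN, hM⟩ := exists_min hr isClosed_closure hne hinv
  exact hMN (min_eq_univ hr hα hM z)

end Pool.Agent.Q39.NR
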